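import Pool.Agent.Helper6.VRaag.Language

/-!
# Conjugacy geodesics in virtual RAAGs twisted by graph automorphisms form a regular language

The definitions (`VGroup`, `stdGens`, `wordLength`, `ConjGeo`) are in
`Pool/Agent/Helper6/VRaag/Defs.lean`.

Outline of the proof.  Write elements of `A_φ` as `g t^k` with `g` in the right-angled Artin group;
then `|g t^k| = |g| + |t^k|` and conjugating by the Artin group is twisted conjugation by
`ψ = φ^(-k)`.  A word `w` has minimal length in its `ψ`-twisted conjugacy class if and only if no
prefix of `w ψ(w) ψ²(w) ⋯` contains a cancelling pair, that is letters `x` and `x⁻¹` such that
all letters in between are adjacent to `x`: a cancelling pair at distance `K` copies can be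
removed by conjugating with `ψ^(-1)(x), …, ψ^(-K)(x)`, and conversely without cancelling pairs the
`n`-th power has length `n |w|`.  This condition depends only on finite data (is `w` reduced, its
support, its possible first letters and its possible last letters), so the Myhill-Nerode theorem
applies.
-/

set_option autoImplicit false

universe u

namespace Pool.Agent.Results.MP_7325c9_al.ConjGeoRegular

open Pool.Agent.Helper6.VRaag

/-- For every finite simple graph `Γ` and every graph automorphism `φ`, the conjugacy geodesic
language of `A_φ` over its standard generating set is regular. -/
theorem result {V : Type u} [Finite V] (Γ : SimpleGraph V) (φ : Γ ≃g Γ) :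
    (ConjGeo (stdGens Γ φ)).IsRegular := by
  classical
  exact conjGeo_regular

end Pool.Agent.Results.MP_7325c9_al.ConjGeoRegular
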